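import Pool.Agent.Helper87.TB.St

/-!
# Project TB, module ZY: Zykov's bound from the Moon-Moser inequality
-/

set_option autoImplicit false

noncomputable section

namespace Pool.Agent.Helper72.TB

open Finset
open scoped Classical
open Pool.Agent.Helper87.TB

/-- the cliques with more than `N` vertices of a `K_{N+1}`-free graph -/
theorem zy_zero {n N r : ℕ} (G : SimpleGraph (Fin n)) (hG : G.CliqueFree (N + 1)) (h : N < r) :
    (G.cliqueFinset r).card = 0 := by
  have h1 : G.CliqueFree r := hG.mono (by omega)
  rw [Finset.card_eq_zero, SimpleGraph.cliqueFinset_eq_empty_iff]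
  exact h1

/-- the ratio of consecutive clique numbers -/
theorem zy_ratio (hMM : StMM) {n N : ℕ} (G : SimpleGraph (Fin n)) (hG : G.CliqueFree (N + 1)) :
    ∀ i j : ℕ, i + j = N →
      (j + 1) * N * (G.cliqueFinset (j + 1)).card ≤ i * n * (G.cliqueFinset j).card := by
  intro i
  induction i with
  | zero =>
    intro j hj
    rw [zy_zero G hG (by omega)]
    simp
  | succ i ih =>
    intro j hj
    have h1 := ih (j + 1) (by omega)
    have h2 := hMM n G j
    have h3 : j + 1 + 1 = j + 2 := by omega
    rw [h3] at h1
    set a := (G.cliqueFinset j).card with ha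
    set b := (G.cliqueFinset (j + 1)).card with hb
    set c := (G.cliqueFinset (j + 2)).card with hc
    by_cases hb0 : b = 0
    · rw [hb0]; simp
    have hbpos : 0 < (j + 1) * b := by positivity
    have h4 : (j + 1) * b * ((j + 1) * N * b) ≤ (j + 1) * b * ((i + 1) * n * a) := by
      calc (j + 1) * b * ((j + 1) * N * b) = N * ((j + 1) ^ 2 * b ^ 2) := by ring
        _ ≤ N * (a * (j * (j + 2) * c + n * b)) := Nat.mul_le_mul_left _ h2
        _ = a * (j * ((j + 1 + 1) * N * c) + N * n * b) := by ring
        _ ≤ a * (j * (i * n * b) + N * n * b) := by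
            refine Nat.mul_le_mul_left _ ?_
            refine Nat.add_le_add_right ?_ _
            exact Nat.mul_le_mul_left _ (by rw [h3]; rw [h3] at h1; exact h1)
        _ = (j + 1) * b * ((i + 1) * n * a) := by
            rw [← hj]; ring
    exact Nat.le_of_mul_le_mul_left h4 hbpos

/-- MODULE ZY -/
theorem aZY (hMM : StMM) : StZY := by
  intro n N r G hG
  by_cases hr : N < r
  · rw [zy_zero G hG hr]; simp
  push Not at hr
  induction r with
  | zero =>
    have h1 : (G.cliqueFinset 0).card ≤ 1 := by
      have h2 : G.cliqueFinset 0 ⊆ {∅} := by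
        intro s hs
        rw [SimpleGraph.mem_cliqueFinset_iff] at hs
        have h3 := hs.card_eq
        rw [Finset.card_eq_zero] at h3
        simp [h3]
      calc (G.cliqueFinset 0).card ≤ ({∅} : Finset (Finset (Fin n))).card := Finset.card_le_card h2
        _ = 1 := by simp
    simpa using h1
  | succ r ih =>
    have h1 := ih (by omega)
    have h2 := zy_ratio hMM G hG (N - r) r (by omega)
    have h3 := Nat.choose_succ_right_eq N r
    set a := (G.cliqueFinset r).card with ha
    set b := (G.cliqueFinset (r + 1)).card with hb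
    have h4 : (r + 1) * (b * N ^ (r + 1)) ≤ (r + 1) * (N.choose (r + 1) * n ^ (r + 1)) := by
      calc (r + 1) * (b * N ^ (r + 1)) = (r + 1) * N * b * N ^ r := by ring
        _ ≤ (N - r) * n * a * N ^ r := Nat.mul_le_mul_right _ h2
        _ = (N - r) * n * (a * N ^ r) := by ring
        _ ≤ (N - r) * n * (N.choose r * n ^ r) := Nat.mul_le_mul_left _ h1
        _ = (N.choose r * (N - r)) * n ^ (r + 1) := by ring
        _ = (N.choose (r + 1) * (r + 1)) * n ^ (r + 1) := by rw [h3]
        _ = (r + 1) * (N.choose (r + 1) * n ^ (r + 1)) := by ring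
    exact Nat.le_of_mul_le_mul_left h4 (by omega)

end Pool.Agent.Helper72.TB

end
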